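import Mathlib
import Pool.Agent.P.MP_c19a8f_an.Main

open Filter Topology

namespace Pool.Agent.Results.MP_c19a8f_an.NoJointRecurrence

/-- For integer polynomials `p`, `q` of degree at least two vanishing at `0` there are two minimal
homeomorphisms `T`, `S` of one nonempty compact metric space such that no point `x` admits integers
`n i` with `|n i| → ∞` (in particular none with `n i → +∞`), `T ^ p (n i) x → x` and
`S ^ q (n i) x → x`. -/
theorem result (p q : Polynomial ℤ) (_hp0 : p.eval 0 = 0) (_hq0 : q.eval 0 = 0)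
    (hp : 2 ≤ p.natDegree) (hq : 2 ≤ q.natDegree) :
    ∃ (X : Type) (_ : MetricSpace X) (_ : CompactSpace X) (_ : Nonempty X) (T S : X ≃ₜ X),
      (∀ x : X, Dense (Set.range fun n : ℤ => (T ^ n) x)) ∧
      (∀ x : X, Dense (Set.range fun n : ℤ => (S ^ n) x)) ∧
      ∀ x : X, ¬ ∃ n : ℕ → ℤ, Tendsto (fun i => |n i|) atTop atTop ∧
        Tendsto (fun i => (T ^ p.eval (n i)) x) atTop (𝓝 x) ∧
        Tendsto (fun i => (S ^ q.eval (n i)) x) atTop (𝓝 x) := by
  obtain ⟨X, hX, hne, T, S, h⟩ := Pool.Agent.P.MP_c19a8f_an.main_top p q hp hq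
  exact ⟨X, TopologicalSpace.metrizableSpaceMetric X,
    isCompact_iff_compactSpace.1 hX.isCompact, hne.to_subtype, T, S, h⟩

end Pool.Agent.Results.MP_c19a8f_an.NoJointRecurrence
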